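import Mathlib
import Pool.Agent.Run7.h866.NU.Class
import Pool.Agent.Y536.SH.Full

set_option autoImplicit false

/-!
# The SHGH conjecture for all classes whose standard form has a near-uniform part

A vector `v` of `k` multiplicities is near-uniform if `k ≥ 200` and `v j ∈ {m, m + 1}` for some
`m ≥ 1`, or `k ≥ 37` and `v` is close to a constant vector `m ≥ (k + 6) / 2`. A class `(d; w)` is
controlled if for a near-uniform vector `v` on some of the points
* `w = v` at these points and `w ≤ 1` at the other ones, or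
* `w ≤ v` at these points, `w ≤ 1` at the other ones and `∑ (v j + 1).choose 2 ≤ (d + 2).choose 2`, or
* `w ≥ v` at these points and `(d + 2).choose 2 ≤ ∑ (v j + 1).choose 2`.

Every controlled class, and every class in the Weyl group orbit of a controlled standard class, has
`h⁰ = max (0, χ)` at general points. For every class `D` and general points at least one of the
following holds: `h⁰ (D) = max (0, χ)`; some `(-1)`-curve `C` has `C D ≤ -2`; or `D`, after the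
removal of disjoint `(-1)`-curves, each taken once, and finitely many quadratic transformations, is a
standard class with the same `h⁰`, different from `max (0, χ)`, which is not controlled.
-/

namespace Pool.Agent.Results.MP_70e04f_ag.NearUniformTwoHundred

open MvPolynomial Pool.Agent.TH167.SHDefs

/-- The cost of a multiplicity `e ≤ m + 1`. -/
def cost (m e : ℕ) : ℕ := if e < m then 4 * (m - e) - 2 else if e = m then 0 else 1

/-- `0, 5, 2, 3` for `k ≡ 0, 1, 2, 3` modulo four. -/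
def spare (k : ℕ) : ℕ := if k % 4 = 1 then 5 else k % 4

/-- Entries `m`, `m + 1` at `200` or more points, or close to a constant vector at `37` or more. -/
def NearUniform {k : ℕ} (v : Fin k → ℕ) : Prop :=
  (200 ≤ k ∧ ∃ m : ℕ, 1 ≤ m ∧ ∀ j, v j = m ∨ v j = m + 1) ∨
  (37 ≤ k ∧ ∃ m : ℕ, k + 6 ≤ 2 * m ∧ (∀ j, v j ≤ m + 1) ∧
    (((∑ j, cost m (v j) : ℕ) : ℝ) + (spare k : ℝ) / 2 + 9 / 8 < 7 * Real.sqrt k / 6 ∨
      ((∑ j, cost m (v j) : ℕ) : ℝ) + spare k + 2 * Real.sqrt k / 3 + 23 / 8 ≤ (k : ℝ) / 4))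

/-- The controlled classes. -/
def Controlled {n : ℕ} (d : ℕ) (w : Fin n → ℕ) : Prop :=
  ∃ (k : ℕ) (e : Fin k ↪ Fin n) (v : Fin k → ℕ), NearUniform v ∧
    (((∀ i, i ∉ Finset.univ.map e → w i ≤ 1) ∧
        ((∀ j, w (e j) = v j) ∨
          ((∀ j, w (e j) ≤ v j) ∧ ∑ j, (v j + 1).choose 2 ≤ (d + 2).choose 2))) ∨
      ((∀ j, v j ≤ w (e j)) ∧ (d + 2).choose 2 ≤ ∑ j, (v j + 1).choose 2))

/-- The class is standard. -/
def Standard {n : ℕ} (d : ℕ) (w : Fin n → ℕ) : Prop :=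
  ∀ i j k : Fin n, i ≠ j → i ≠ k → j ≠ k → w i + w j + w k ≤ d

/-- `h⁰ (D)` for the class `D = d H - ∑ w i E i`. -/
noncomputable def hZero {n : ℕ} (P : Fin n → Fin 2 → ℂ) (d : ℕ) (w : Fin n → ℕ) : ℤ :=
  (Module.finrank ℂ ↥(sys P d w) : ℤ)

/-- The Euler characteristic. -/
def chi {n : ℕ} (d : ℕ) (w : Fin n → ℕ) : ℤ :=
  ((d + 2).choose 2 : ℤ) - ∑ i, ((w i + 1).choose 2 : ℤ)

/-- The property holds for all `n`-tuples of points outside some hypersurface. -/
def ForGeneral {n : ℕ} (p : (Fin n → Fin 2 → ℂ) → Prop) : Prop :=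
  ∃ F : MvPolynomial (Fin n × Fin 2) ℂ, F ≠ 0 ∧ ∀ P : Fin n → Fin 2 → ℂ,
    eval (fun ij : Fin n × Fin 2 => P ij.1 ij.2) F ≠ 0 → p P

/-- The reflection of the class `a = (d; w)`, `d H - ∑ w l E l`, in the class
`H - E (i 0) - E (i 1) - E (i 2)`: with `δ = d - w (i 0) - w (i 1) - w (i 2)`, the numbers
`d`, `w (i 0)`, `w (i 1)`, `w (i 2)` are increased by `δ`. -/
def reflect {n : ℕ} (i : Fin 3 → Fin n) (a : ℤ × (Fin n → ℤ)) : ℤ × (Fin n → ℤ) :=
  (a.1 + (a.1 - a.2 (i 0) - a.2 (i 1) - a.2 (i 2)),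
    fun l => a.2 l + if l = i 0 ∨ l = i 1 ∨ l = i 2 then a.1 - a.2 (i 0) - a.2 (i 1) - a.2 (i 2)
      else 0)

/-- Finitely many reflections carry `(d; w)` to `(d'; w')`. -/
def Carries {n : ℕ} (d : ℕ) (w : Fin n → ℕ) (d' : ℕ) (w' : Fin n → ℕ) : Prop :=
  Relation.ReflTransGen
    (fun a b : ℤ × (Fin n → ℤ) => ∃ i : Fin 3 → Fin n, Function.Injective i ∧ b = reflect i a)
    ((d : ℤ), fun l => (w l : ℤ)) ((d' : ℤ), fun l => (w' l : ℤ))

theorem hZero_of {n : ℕ} {P : Fin n → Fin 2 → ℂ} {d : ℕ} {w : Fin n → ℕ}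
    (h : Pool.Agent.H932R3.ExpDim ℂ w P d) : hZero P d w = max 0 (chi d w) := by
  have h1 : Module.finrank ℂ ↥(sys P d w) =
      Nat.choose (d + 2) 2 - ∑ i, Nat.choose (w i + 1) 2 := h
  have h2 : ∑ i, ((w i + 1).choose 2 : ℤ) = ((∑ i, Nat.choose (w i + 1) 2 : ℕ) : ℤ) := by
    push_cast
    rfl
  unfold hZero chi
  rw [h1, h2]
  omega

theorem special_of_ne {n : ℕ} {P : Fin n → Fin 2 → ℂ} {d : ℕ} {w : Fin n → ℕ} :
    hZero P d w ≠ max 0 (chi d w) ↔ Pool.Agent.TH167.SH.Special P d w := by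
  unfold hZero Pool.Agent.TH167.SH.Special
  rw [Pool.Agent.TH167.SH.sys_eq]
  exact Iff.rfl

theorem ctrl_of {n d : ℕ} {w : Fin n → ℕ} (h : Controlled d w) :
    Pool.Agent.Run7.h866.NU.Ctrl d w := by
  obtain ⟨k, e, v, hv, h⟩ := h
  refine ⟨k, e, v, ?_, h⟩
  have ec : ∀ m e, cost m e = Pool.Agent.Run7.h866.NU.cst m e := fun _ _ => rfl
  have es : ∀ t, spare t = Pool.Agent.Run7.h866.NU.cc t := fun _ => rfl
  rcases hv with ⟨h1, m, hm, h2⟩ | ⟨h1, m, hm, h2, h3⟩
  · exact Or.inl ⟨h1, m, hm, h2⟩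
  · simp only [ec, es] at h3
    exact Or.inr ⟨m, h1, hm, h2, h3⟩

theorem result (n : ℕ) (hn : 4 ≤ n) (d : ℕ) (w : Fin n → ℕ) : ForGeneral fun P =>
    (Controlled d w → hZero P d w = max 0 (chi d w)) ∧
    ((∃ (d' : ℕ) (w' : Fin n → ℕ), Carries d w d' w' ∧ Standard d' w' ∧ Controlled d' w') →
      hZero P d w = max 0 (chi d w)) ∧
    (hZero P d w = max 0 (chi d w) ∨
      (∃ (G : MvPolynomial (Fin 3) ℂ) (e : ℕ) (u : Fin n → ℕ), MinusOne P G e u ∧
        inter d w e u ≤ -2) ∨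
      ∃ (d'' : ℕ) (w'' : Fin n → ℕ) (k : ℕ) (G : Fin k → MvPolynomial (Fin 3) ℂ)
        (e : Fin k → ℕ) (u : Fin k → Fin n → ℕ) (d' : ℕ) (w' : Fin n → ℕ),
        Decomp P d w d'' w'' G e u (fun _ => 1) ∧
        Relation.ReflTransGen Quadratic (d'', w'') (d', w') ∧ Standard d' w' ∧
        hZero P d' w' = hZero P d w ∧ hZero P d' w' ≠ max 0 (chi d' w') ∧
        ¬ Controlled d' w') := by
  obtain ⟨F0, hF0, hF0'⟩ : ForGeneral fun P : Fin n → Fin 2 → ℂ =>
      Controlled d w → hZero P d w = max 0 (chi d w) := by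
    by_cases h : Controlled d w
    · obtain ⟨F, hF, hF'⟩ := Pool.Agent.Run7.h866.NU.ctrl_open (ctrl_of h)
      refine ⟨F.map (algebraMap ℚ ℂ), Pool.Agent.H932R3.map_ne_zero_of hF, fun P hP _ => ?_⟩
      rw [MvPolynomial.eval_map] at hP
      exact hZero_of (hF' (L := ℂ) P hP)
    · exact ⟨1, one_ne_zero, fun P _ h' => absurd h' h⟩
  obtain ⟨F1, hF1, hF1'⟩ : ForGeneral fun P : Fin n → Fin 2 → ℂ =>
      (∃ (d' : ℕ) (w' : Fin n → ℕ), Carries d w d' w' ∧ Standard d' w' ∧ Controlled d' w') →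
        hZero P d w = max 0 (chi d w) := by
    by_cases h : ∃ (d' : ℕ) (w' : Fin n → ℕ), Carries d w d' w' ∧ Standard d' w' ∧
        Controlled d' w'
    · obtain ⟨d', w', hc, hs, hG⟩ := h
      obtain ⟨F, hF, hF'⟩ := Pool.Agent.TH442.NF.to_open (d := d) (w := w)
        fun {_ _ _ P} hP => Pool.Agent.TH442.NF.up_enef hP hc
          (Pool.Agent.TH442.NF.enef_of_std hn P hs)
          (Pool.Agent.Run7.h866.NU.ctrl_exp (ctrl_of hG) hP)
      refine ⟨F.map (algebraMap ℚ ℂ), Pool.Agent.H932R3.map_ne_zero_of hF, fun P hP _ => ?_⟩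
      rw [MvPolynomial.eval_map] at hP
      exact hZero_of (hF' (L := ℂ) P hP)
    · exact ⟨1, one_ne_zero, fun P _ h' => absurd h' h⟩
  obtain ⟨r, rfl⟩ : ∃ r, n = r + 4 := ⟨n - 4, by omega⟩
  obtain ⟨F, hF, hF'⟩ := Pool.Agent.Y536.SH.hh_full
    (Q := fun d' w' => Controlled d' w')
    (fun hP d1 w1 hr hG => Pool.Agent.Run7.h866.NU.ctrl_exp (ctrl_of hG) hP) d w
  refine ⟨F0 * F1 * F.map (algebraMap ℚ ℂ), mul_ne_zero (mul_ne_zero hF0 hF1)
    (Pool.Agent.TH167.SH.map_ne hF), fun P hP => ?_⟩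
  rw [map_mul, map_mul] at hP
  refine ⟨hF0' P (left_ne_zero_of_mul (left_ne_zero_of_mul hP)),
    hF1' P (right_ne_zero_of_mul (left_ne_zero_of_mul hP)), ?_⟩
  have hP2 := right_ne_zero_of_mul hP
  rw [Pool.Agent.TH167.SH.evP_eval] at hP2
  by_cases hs : hZero P d w = max 0 (chi d w)
  · exact Or.inl hs
  · right
    have hsp := special_of_ne.1 hs
    rcases hF' ℂ P hP2 hsp with h | ⟨d', w', k, C, e, u, N, d1, w1, h1, h2, h3, h4, h5, h6⟩
    · left
      exact Pool.Agent.TH167.SH.mspecial_curve ((Pool.Agent.TH167.SH.mspecial_conv P d w).2 h)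
    · by_cases hN : ∃ a, 2 ≤ N a
      · left
        obtain ⟨a, ha⟩ := hN
        refine ⟨C a, e a, u a, Pool.Agent.TH167.SH.minusOne_iff.2 (h1.exc a), ?_⟩
        rw [Pool.Agent.TH167.SH.inter_eq, h1.neg a]
        omega
      · right
        push Not at hN
        have hN1 : N = fun _ => 1 := by
          funext a
          have := h1.pos a
          have := hN a
          omega
        subst hN1
        refine ⟨d', w', k, C, e, u, d1, w1, Pool.Agent.TH167.SH.decomp_iff.2 h1,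
          Pool.Agent.TH167.SH.chain_conv h2, h3, ?_, special_of_ne.2 h4, h6⟩
        unfold hZero
        rw [Pool.Agent.TH167.SH.sys_eq, Pool.Agent.TH167.SH.sys_eq, h5]

end Pool.Agent.Results.MP_70e04f_ag.NearUniformTwoHundred
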